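import Mathlib
import Pool.Agent.P.MP_eb2ab9_co.Defs
import Pool.Agent.P.MP_eb2ab9_co.Algebra
import Pool.Agent.P.MP_eb2ab9_co.Ball

/-!
Simplicial homology `n`-spheres and simplicial `n`-balls with a general position configuration in
`ℝ^d`, `d ≤ n`, are skeletal `r`-ample for every `r`.
-/

set_option autoImplicit false

namespace Pool.Agent.Results.MP_eb2ab9_co.Ample

open Pool.Agent.P.MP_eb2ab9_co in
theorem result {V : Type} [Fintype V] [LinearOrder V] (Δ : Set (Finset V))
    (hlower : IsLowerSet Δ) (n d r : ℕ) (hd : d ≤ n)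
    (hΔ : IsHomologySphere Δ n ∨ IsBall Δ n) (p : V → (Fin d → ℝ))
    (hp : ∀ σ ∈ Δ, σ.card ≤ d + 1 → AffineIndependent ℝ fun v : σ => p v) :
    IsSkeletalAmple Δ (fun v => ((p v, 1) : (Fin d → ℝ) × ℝ)) r := by
  have hdim : Module.finrank ℝ ((Fin d → ℝ) × ℝ) = d + 1 := by simp
  refine ample_of_relExact Δ hlower _ (fun σ hσ hc => ?_) (fun τ k hk => ?_) r
  · exact indep_of_affineIndependent p σ (hp σ hσ (hdim ▸ hc))
  · have hk' : k ≤ n := by omega
    rcases hΔ with h | h
    · exact (relExact_of_sphere hlower h τ k hk').rat.vec ℝ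
    · exact (relExact_of_ball hlower h τ k hk').rat.vec ℝ

end Pool.Agent.Results.MP_eb2ab9_co.Ample
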